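import Mathlib
import Pool.Agent.Results.MP_2392aa_gt.NoGlobalModel
import Pool.Agent.Helper418_IRS.IR15

/-!
# A lattice action on the plane which is not linearizable near its only periodic point

`Γ` is the subgroup of finite index of `SL(2,ℤ)` generated freely by the matrices
`A = (1 2; 0 1)` and `B = (1 0; 2 1)`.  It acts on the plane by real-analytic (polynomial)
diffeomorphisms: `B` acts by its linear map and `A` by the map
`(x, y) ↦ (x + 2 (y + x ^ 2), y + x ^ 2)`.  The origin is the only periodic point, the derivative at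
the origin is the inclusion `Γ → SL(2,ℝ)`, but the origin is the only fixed point of `A`, while the
linear map `A` fixes a line; so the action is not even topologically linearizable near the origin.
-/

set_option autoImplicit false

open scoped Manifold ContDiff Topology MatrixGroups

namespace Pool.Agent.Results.MP_2392aa_gt.NotLinearizable

open Pool.Agent.Results.MP_2392aa_gt.NoGlobalModel
open Pool.Agent.TH636.Lat (Gam IsLattice isLattice_Gam)
open Pool.Agent.Helper460_OutF (saA saB sanov sanov_injective)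

/-- The free group of rank two, as a subgroup of `SL(2,ℝ)`. -/
noncomputable def sR : FreeGroup (Fin 2) →* SL(2, ℝ) :=
  (Matrix.SpecialLinearGroup.map (n := Fin 2) (Int.castRingHom ℝ)).comp sanov

lemma map_injective :
    Function.Injective (Matrix.SpecialLinearGroup.map (n := Fin 2) (Int.castRingHom ℝ)) := by
  intro A B h
  ext i j
  have h1 := congrArg (fun X : SL(2, ℝ) => (X : Matrix (Fin 2) (Fin 2) ℝ) i j) h
  simpa using h1

lemma sR_injective : Function.Injective sR := map_injective.comp sanov_injective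

/-- The lattice. -/
noncomputable def G : Subgroup SL(2, ℝ) := sR.range

lemma sR_zero : (sR (FreeGroup.of 0) : Matrix (Fin 2) (Fin 2) ℝ) = !![1, 2; 0, 1] := by
  have h : sR (FreeGroup.of 0) = Matrix.SpecialLinearGroup.map (Int.castRingHom ℝ) saA := by
    simp [sR, sanov]
  rw [h]
  ext i j
  have h1 : (Matrix.SpecialLinearGroup.map (Int.castRingHom ℝ) saA : SL(2, ℝ)) i j =
      (((!![1, 2; 0, 1] : Matrix (Fin 2) (Fin 2) ℤ) i j : ℤ) : ℝ) := rfl
  rw [h1]
  fin_cases i <;> fin_cases j <;> simp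

lemma sR_one : (sR (FreeGroup.of 1) : Matrix (Fin 2) (Fin 2) ℝ) = !![1, 0; 2, 1] := by
  have h : sR (FreeGroup.of 1) = Matrix.SpecialLinearGroup.map (Int.castRingHom ℝ) saB := by
    simp [sR, sanov]
  rw [h]
  ext i j
  have h1 : (Matrix.SpecialLinearGroup.map (Int.castRingHom ℝ) saB : SL(2, ℝ)) i j =
      (((!![1, 0; 2, 1] : Matrix (Fin 2) (Fin 2) ℤ) i j : ℤ) : ℝ) := rfl
  rw [h1]
  fin_cases i <;> fin_cases j <;> simp

lemma ext2 {x y : E 2} (h0 : x 0 = y 0) (h1 : x 1 = y 1) : x = y := by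
  ext i
  fin_cases i
  · exact h0
  · exact h1

/-- the diffeomorphism by which the first generator acts -/
noncomputable def fA : Equiv.Perm (E 2) where
  toFun x := !₂[x 0 + 2 * (x 1 + x 0 ^ 2), x 1 + x 0 ^ 2]
  invFun x := !₂[x 0 - 2 * x 1, x 1 - (x 0 - 2 * x 1) ^ 2]
  left_inv x := by
    apply ext2 <;> simp
  right_inv x := by
    apply ext2 <;> simp

/-- the diffeomorphism by which the second generator acts -/
noncomputable def fB : Equiv.Perm (E 2) where
  toFun x := !₂[x 0, x 1 + 2 * x 0]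
  invFun x := !₂[x 0, x 1 - 2 * x 0]
  left_inv x := by
    apply ext2 <;> simp
  right_inv x := by
    apply ext2 <;> simp

/-- the action of the free group -/
noncomputable def al : FreeGroup (Fin 2) →* Equiv.Perm (E 2) := FreeGroup.lift ![fA, fB]

lemma al_zero : al (FreeGroup.of 0) = fA := by simp [al]
lemma al_one : al (FreeGroup.of 1) = fB := by simp [al]

/-- analytic, fixes the origin and has the expected derivative there -/
def P (w : FreeGroup (Fin 2)) : Prop :=
  ContDiff ℝ ω (al w) ∧ al w 0 = 0 ∧ HasFDerivAt (al w) (lin (sR w)) 0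

lemma hasFDeriv_coord (i : Fin 2) (x : E 2) :
    HasFDerivAt (fun y : E 2 => y i) (EuclideanSpace.proj i : E 2 →L[ℝ] ℝ) x :=
  (EuclideanSpace.proj i : E 2 →L[ℝ] ℝ).hasFDerivAt

lemma P_one : P 1 := by
  refine ⟨?_, ?_, ?_⟩
  · rw [map_one]; exact contDiff_id
  · rw [map_one]; rfl
  · rw [map_one, map_one, lin_one]; exact hasFDerivAt_id _

lemma P_mul {v w : FreeGroup (Fin 2)} (hv : P v) (hw : P w) : P (v * w) := by
  obtain ⟨a1, a2, a3⟩ := hv
  obtain ⟨b1, b2, b3⟩ := hw
  refine ⟨?_, ?_, ?_⟩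
  · rw [map_mul]; exact a1.comp b1
  · rw [map_mul, Equiv.Perm.mul_apply, b2, a2]
  · rw [map_mul, map_mul, lin_mul]
    have a3' : HasFDerivAt (al v) (lin (sR v)) (al w 0) := by rw [b2]; exact a3
    exact a3'.comp 0 b3

lemma lin_zero (x : E 2) : lin (sR (FreeGroup.of 0)) x = !₂[x 0 + 2 * x 1, x 1] := by
  apply ext2
  · rw [lin_apply, sR_zero]; simp [Fin.sum_univ_two]
  · rw [lin_apply, sR_zero]; simp [Fin.sum_univ_two]

lemma lin_one' (x : E 2) : lin (sR (FreeGroup.of 1)) x = !₂[x 0, x 1 + 2 * x 0] := by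
  apply ext2
  · rw [lin_apply, sR_one]; simp [Fin.sum_univ_two]
  · rw [lin_apply, sR_one]; simp [Fin.sum_univ_two]; ring

lemma lin_zero_inv (x : E 2) : lin (sR (FreeGroup.of 0)⁻¹) x = !₂[x 0 - 2 * x 1, x 1] := by
  have h : lin (sR (FreeGroup.of 0)) (!₂[x 0 - 2 * x 1, x 1] : E 2) = x := by
    rw [lin_zero]; apply ext2 <;> simp
  conv_lhs => rw [← h]
  rw [← lin_mul_apply, ← map_mul, inv_mul_cancel, map_one, lin_one]
  rfl

lemma lin_one_inv (x : E 2) : lin (sR (FreeGroup.of 1)⁻¹) x = !₂[x 0, x 1 - 2 * x 0] := by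
  have h : lin (sR (FreeGroup.of 1)) (!₂[x 0, x 1 - 2 * x 0] : E 2) = x := by
    rw [lin_one']; apply ext2 <;> simp
  conv_lhs => rw [← h]
  rw [← lin_mul_apply, ← map_mul, inv_mul_cancel, map_one, lin_one]
  rfl

lemma fderiv_aux {f : E 2 → E 2} {g : E 2 →L[ℝ] E 2} (c d : ℝ) (L : E 2 →L[ℝ] ℝ)
    (h : ∀ x, f x = g x + L x ^ 2 • !₂[c, d]) : HasFDerivAt f g 0 := by
  have hL : HasFDerivAt (fun x : E 2 => L x ^ 2 • (!₂[c, d] : E 2)) (0 : E 2 →L[ℝ] E 2) 0 := by
    have h1 : HasFDerivAt (fun x : E 2 => L x ^ 2) (0 : E 2 →L[ℝ] ℝ) 0 := by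
      have h2 := (L.hasFDerivAt (x := (0 : E 2))).pow 2
      simpa using h2
    have h3 := h1.smul_const (!₂[c, d] : E 2)
    simpa using h3
  have h4 := (g.hasFDerivAt (x := (0 : E 2))).add hL
  rw [add_zero] at h4
  refine h4.congr_of_eventuallyEq (Filter.Eventually.of_forall fun x => ?_)
  exact h x

lemma contDiff_coord (i : Fin 2) : ContDiff ℝ ω (fun y : E 2 => y i) :=
  (EuclideanSpace.proj i : E 2 →L[ℝ] ℝ).contDiff

lemma contDiff_vec {f g : E 2 → ℝ} (hf : ContDiff ℝ ω f) (hg : ContDiff ℝ ω g) :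
    ContDiff ℝ ω (fun x => (!₂[f x, g x] : E 2)) := by
  rw [contDiff_euclidean]
  intro i
  fin_cases i
  · exact hf
  · exact hg

lemma P_of (i : Fin 2) : P (FreeGroup.of i) := by
  fin_cases i
  · refine ⟨?_, ?_, ?_⟩
    · change ContDiff ℝ ω (al (FreeGroup.of 0))
      rw [al_zero]
      exact contDiff_vec ((contDiff_coord 0).add (contDiff_const.mul ((contDiff_coord 1).add
        ((contDiff_coord 0).pow 2)))) ((contDiff_coord 1).add ((contDiff_coord 0).pow 2))
    · change al (FreeGroup.of 0) 0 = 0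
      rw [al_zero]
      apply ext2 <;> simp [fA]
    · change HasFDerivAt (al (FreeGroup.of 0)) (lin (sR (FreeGroup.of 0))) 0
      rw [al_zero]
      refine fderiv_aux 2 1 (EuclideanSpace.proj 0) fun x => ?_
      rw [lin_zero]
      apply ext2 <;> simp [fA]
      ring
  · refine ⟨?_, ?_, ?_⟩
    · change ContDiff ℝ ω (al (FreeGroup.of 1))
      rw [al_one]
      exact contDiff_vec (contDiff_coord 0) ((contDiff_coord 1).add
        (contDiff_const.mul (contDiff_coord 0)))
    · change al (FreeGroup.of 1) 0 = 0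
      rw [al_one]
      apply ext2 <;> simp [fB]
    · change HasFDerivAt (al (FreeGroup.of 1)) (lin (sR (FreeGroup.of 1))) 0
      rw [al_one]
      refine fderiv_aux 0 0 (EuclideanSpace.proj 0) fun x => ?_
      rw [lin_one']
      apply ext2 <;> simp [fB]

lemma P_inv (i : Fin 2) : P (FreeGroup.of i)⁻¹ := by
  fin_cases i
  · refine ⟨?_, ?_, ?_⟩
    · change ContDiff ℝ ω (al (FreeGroup.of 0)⁻¹)
      rw [map_inv, al_zero]
      exact contDiff_vec ((contDiff_coord 0).sub (contDiff_const.mul (contDiff_coord 1)))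
        ((contDiff_coord 1).sub (((contDiff_coord 0).sub
          (contDiff_const.mul (contDiff_coord 1))).pow 2))
    · change al (FreeGroup.of 0)⁻¹ 0 = 0
      rw [map_inv, al_zero]
      change fA.symm 0 = 0
      apply ext2 <;> simp [fA]
    · change HasFDerivAt (al (FreeGroup.of 0)⁻¹) (lin (sR (FreeGroup.of 0)⁻¹)) 0
      rw [map_inv, al_zero]
      refine fderiv_aux 0 (-1) (EuclideanSpace.proj 0 - (2 : ℝ) • EuclideanSpace.proj 1)
        fun x => ?_
      rw [lin_zero_inv]
      change fA.symm x = _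
      apply ext2 <;> simp [fA]
      ring
  · refine ⟨?_, ?_, ?_⟩
    · change ContDiff ℝ ω (al (FreeGroup.of 1)⁻¹)
      rw [map_inv, al_one]
      exact contDiff_vec (contDiff_coord 0) ((contDiff_coord 1).sub
        (contDiff_const.mul (contDiff_coord 0)))
    · change al (FreeGroup.of 1)⁻¹ 0 = 0
      rw [map_inv, al_one]
      change fB.symm 0 = 0
      apply ext2 <;> simp [fB]
    · change HasFDerivAt (al (FreeGroup.of 1)⁻¹) (lin (sR (FreeGroup.of 1)⁻¹)) 0
      rw [map_inv, al_one]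
      refine fderiv_aux 0 0 (EuclideanSpace.proj 0) fun x => ?_
      rw [lin_one_inv]
      change fB.symm x = _
      apply ext2 <;> simp [fB]

lemma P_all (w : FreeGroup (Fin 2)) : P w :=
  FreeGroup.induction_on w P_one P_of (fun i _ => P_inv i) (fun _ _ => P_mul)

/-- the lattice as a free group -/
noncomputable def toF : G ≃* FreeGroup (Fin 2) := (MonoidHom.ofInjective sR_injective).symm

lemma sR_toF (γ : G) : sR (toF γ) = (γ : SL(2, ℝ)) := by
  have h := (MonoidHom.ofInjective sR_injective).apply_symm_apply γ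
  exact congrArg Subtype.val h

/-- The plane `ℝ²`. -/
def Plane : Type := E 2

instance : TopologicalSpace Plane := inferInstanceAs (TopologicalSpace (E 2))
instance : ChartedSpace (E 2) Plane := inferInstanceAs (ChartedSpace (E 2) (E 2))
instance : IsManifold (𝓡 2) ∞ Plane := inferInstanceAs (IsManifold (𝓡 2) ∞ (E 2))
instance : T2Space Plane := inferInstanceAs (T2Space (E 2))
instance : SecondCountableTopology Plane := inferInstanceAs (SecondCountableTopology (E 2))

/-- The origin of the plane. -/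
def O : Plane := (0 : E 2)

/-- the action of the lattice on the plane -/
noncomputable instance act : MulAction G Plane where
  smul γ x := al (toF γ) (x : E 2)
  one_smul x := by
    change al (toF 1) (x : E 2) = x
    rw [map_one, map_one]; rfl
  mul_smul γ δ x := by
    change al (toF (γ * δ)) (x : E 2) = al (toF γ) (al (toF δ) (x : E 2))
    rw [map_mul, map_mul]; rfl

lemma smul_def (γ : G) : (fun x : Plane => γ • x) = (al (toF γ) : E 2 → E 2) := rfl

/-- the first generator -/
noncomputable def gA : G := ⟨sR (FreeGroup.of 0), ⟨_, rfl⟩⟩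

lemma toF_gA : toF gA = FreeGroup.of 0 := by
  apply sR_injective
  rw [sR_toF]
  rfl

lemma smul_gA : (fun x : Plane => gA • x) = (fA : E 2 → E 2) := by
  rw [smul_def, toF_gA, al_zero]

open Pool.Agent.TH636.Lat (cone lm lm_apply lm_mul lm_one RM) in
lemma cone_trans (A : SL(2, ℤ)) (F : Set SL(2, ℝ)) :
    cone {g | Matrix.SpecialLinearGroup.map (n := Fin 2) (Int.castRingHom ℝ) A * g ∈ F} =
      (lm A) ⁻¹' cone F := by
  ext M
  constructor
  · rintro ⟨t, ht0, ht1, g, hg, hM⟩
    refine ⟨t, ht0, ht1, _, hg, fun i j => ?_⟩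
    rw [lm_apply, Matrix.SpecialLinearGroup.coe_mul, Matrix.mul_apply, Finset.mul_sum]
    refine Finset.sum_congr rfl fun k _ => ?_
    rw [hM k j]
    have : (Matrix.SpecialLinearGroup.map (n := Fin 2) (Int.castRingHom ℝ) A :
      Matrix (Fin 2) (Fin 2) ℝ) i k = ((A : Matrix (Fin 2) (Fin 2) ℤ) i k : ℝ) := rfl
    rw [this]
    ring
  · rintro ⟨t, ht0, ht1, f, hf, hM⟩
    refine ⟨t, ht0, ht1, (Matrix.SpecialLinearGroup.map (n := Fin 2) (Int.castRingHom ℝ) A)⁻¹ * f,
      ?_, ?_⟩
    · change _ * (_ * f) ∈ F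
      rw [mul_inv_cancel_left]
      exact hf
    · intro i j
      have h1 : M = lm A⁻¹ (lm A M) := by
        rw [← lm_mul, inv_mul_cancel, lm_one]
      rw [h1, lm_apply, Matrix.SpecialLinearGroup.coe_mul, Matrix.mul_apply, Finset.mul_sum]
      refine Finset.sum_congr rfl fun k _ => ?_
      rw [hM k j, ← map_inv]
      have : (Matrix.SpecialLinearGroup.map (n := Fin 2) (Int.castRingHom ℝ) A⁻¹ :
        Matrix (Fin 2) (Fin 2) ℝ) i k = ((A⁻¹ : SL(2, ℤ)) i k : ℝ) := rfl
      rw [this]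
      ring

open Pool.Agent.TH636.Lat (lm lm_mul lm_one RM) in
lemma det_lm_ne (A : SL(2, ℤ)) : LinearMap.det (lm (n := 2) A) ≠ 0 := by
  have h : (lm (n := 2) A) ∘ₗ (lm A⁻¹) = LinearMap.id := by
    refine LinearMap.ext fun M => ?_
    rw [LinearMap.comp_apply, ← lm_mul, mul_inv_cancel, lm_one]
    rfl
  have h2 := congrArg LinearMap.det h
  rw [LinearMap.det_comp, LinearMap.det_id] at h2
  exact left_ne_zero_of_mul_eq_one h2

open Pool.Agent.TH636.Lat (cone lm RM) in
open MeasureTheory in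
lemma isLattice_G : IsLattice G := by
  obtain ⟨⟨ε, hε, h1⟩, F, hF, hFm, hFv⟩ := isLattice_Gam (n := 2) (by norm_num)
  have hfi : sanov.range.FiniteIndex := by
    have h1 : (Matrix.SpecialLinearGroup.map (n := Fin 2)
        (Int.castRingHom (ZMod 4))).ker.FiniteIndex := Subgroup.finiteIndex_ker _
    exact Subgroup.finiteIndex_of_le Helper418IRS.IR15.ker_le
  have hfin : Finite (SL(2, ℤ) ⧸ sanov.range) := Subgroup.finite_quotient_of_finiteIndex
  refine ⟨⟨ε, hε, fun γ hγ h => h1 γ ?_ h⟩, ?_⟩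
  · obtain ⟨w, rfl⟩ := hγ
    exact ⟨sanov w, rfl⟩
  let mp : SL(2, ℤ) →* SL(2, ℝ) := Matrix.SpecialLinearGroup.map (n := Fin 2) (Int.castRingHom ℝ)
  refine ⟨⋃ q : SL(2, ℤ) ⧸ sanov.range, {g | mp q.out * g ∈ F}, ?_, ?_, ?_⟩
  · intro g
    obtain ⟨_, ⟨A, rfl⟩, hA⟩ := hF g
    have h2 : (QuotientGroup.mk A : SL(2, ℤ) ⧸ sanov.range).out⁻¹ * A ∈ sanov.range := by
      rw [← QuotientGroup.eq]
      exact Quotient.out_eq' _
    obtain ⟨w, hw⟩ := h2
    refine ⟨sR w, ⟨w, rfl⟩, ?_⟩
    rw [Set.mem_iUnion]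
    refine ⟨QuotientGroup.mk A, ?_⟩
    change mp _ * (mp (sanov w) * g) ∈ F
    rw [hw, ← mul_assoc, ← map_mul, mul_inv_cancel_left]
    exact hA
  all_goals
    have hcone : cone (⋃ q : SL(2, ℤ) ⧸ sanov.range, {g | mp q.out * g ∈ F}) =
        ⋃ q : SL(2, ℤ) ⧸ sanov.range, (lm q.out) ⁻¹' cone F := by
      rw [← Set.iUnion_congr fun q : SL(2, ℤ) ⧸ sanov.range => cone_trans q.out F]
      ext M
      simp only [cone, Set.mem_iUnion, Set.mem_ofPred_eq]
      constructor
      · rintro ⟨t, h0, h1, g, ⟨q, hq⟩, hM⟩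
        exact ⟨q, t, h0, h1, g, hq, hM⟩
      · rintro ⟨q, t, h0, h1, g, hq, hM⟩
        exact ⟨t, h0, h1, g, ⟨q, hq⟩, hM⟩
    rw [hcone]
  · have := hfin
    exact MeasurableSet.iUnion fun q =>
      (LinearMap.continuous_of_finiteDimensional (lm q.out)).measurable hFm
  · have := Fintype.ofFinite (SL(2, ℤ) ⧸ sanov.range)
    refine lt_of_le_of_lt (measure_iUnion_fintype_le _ _) ?_
    refine ENNReal.sum_lt_top.2 fun q _ => ?_
    rw [Measure.addHaar_preimage_linearMap _ (det_lm_ne q.out)]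
    exact ENNReal.mul_lt_top ENNReal.ofReal_lt_top hFv

/-! ### The derivative at the origin -/

lemma der_eq_lin (γ : G) : der 2 O γ = lin (γ : SL(2, ℝ)) := by
  have h := (P_all (toF γ)).2.2
  rw [sR_toF] at h
  have h1 : der 2 O γ = mfderiv (𝓡 2) (𝓡 2) (al (toF γ) : E 2 → E 2) (0 : E 2) := rfl
  rw [h1, mfderiv_eq_fderiv]
  exact h.fderiv

lemma pow_apply (k : ℕ) : lin (sR (FreeGroup.of 0) ^ k) (!₂[0, 1] : E 2) = !₂[2 * (k : ℝ), 1] := by
  induction k with
  | zero =>
    rw [pow_zero, lin_one]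
    apply ext2 <;> simp
  | succ k ih =>
    rw [pow_succ', lin_mul_apply, ih, lin_zero]
    apply ext2 <;> simp
    ring

lemma unbounded (C : ℝ) : ∃ γ : G, C < ‖der 2 O γ‖ := by
  obtain ⟨k, hk⟩ := exists_nat_gt C
  refine ⟨gA ^ k, ?_⟩
  rw [der_eq_lin]
  have h0 : ((gA ^ k : G) : SL(2, ℝ)) = sR (FreeGroup.of 0) ^ k := rfl
  rw [h0]
  have h1 : ‖(!₂[0, 1] : E 2)‖ = 1 := by
    rw [EuclideanSpace.norm_eq]; simp
  have h2 : |2 * (k : ℝ)| ≤ ‖lin (sR (FreeGroup.of 0) ^ k) (!₂[0, 1] : E 2)‖ := by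
    rw [pow_apply]
    have := PiLp.norm_apply_le (!₂[2 * (k : ℝ), 1] : E 2) 0
    simpa using this
  have h3 := (lin (sR (FreeGroup.of 0) ^ k)).le_opNorm (!₂[0, 1] : E 2)
  rw [h1, mul_one] at h3
  have h4 : (0 : ℝ) ≤ k := Nat.cast_nonneg k
  rw [abs_of_nonneg (by linarith)] at h2
  linarith

/-- `φ` conjugates, near the fixed point `p`, the diffeomorphism `γ` of `M` to its derivative at `p`.
-/
def ConjNear {Γ M : Type} [Group Γ] [TopologicalSpace M] [ChartedSpace (E 2) M] [MulAction Γ M]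
    (p : M) (γ : Γ) (φ : OpenPartialHomeomorph M (E 2)) : Prop :=
  p ∈ φ.source ∧ φ p = 0 ∧ ∀ᶠ x in 𝓝 p, φ (γ • x) = der 2 p γ (φ x)

lemma fA_fixed {x : E 2} (h : fA x = x) : x = 0 := by
  have h0 : x 0 + 2 * (x 1 + x 0 ^ 2) = x 0 := congrArg (fun y : E 2 => y 0) h
  have h1 : x 1 + x 0 ^ 2 = x 1 := congrArg (fun y : E 2 => y 1) h
  have h2 : x 0 = 0 := by
    have : x 0 ^ 2 = 0 := by linarith
    exact pow_eq_zero_iff (two_ne_zero) |>.1 this
  have h3 : x 1 = 0 := by rw [h2] at h0; linarith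
  exact ext2 h2 h3

lemma continuous_gA : Continuous (fun x : Plane => gA • x) := by
  rw [smul_gA, ← al_zero]
  exact (P_all (FreeGroup.of 0)).1.continuous

lemma gA_O : gA • O = O := by
  have h := congrFun smul_gA O
  change gA • O = fA (0 : E 2) at h
  rw [h, ← al_zero]
  exact (P_all (FreeGroup.of 0)).2.1

lemma not_conj (φ : OpenPartialHomeomorph Plane (E 2)) : ¬ ConjNear O gA φ := by
  rintro ⟨h1, h2, h3⟩
  have h4 : ∀ᶠ x in 𝓝 O, x ∈ φ.source ∧ gA • x ∈ φ.source ∧ φ (gA • x) = der 2 O gA (φ x) := by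
    have h5 : ∀ᶠ x in 𝓝 O, gA • x ∈ φ.source := by
      refine continuous_gA.continuousAt.eventually_mem ?_
      rw [gA_O]
      exact φ.open_source.mem_nhds h1
    filter_upwards [φ.open_source.mem_nhds h1, h5, h3] with x a b c using ⟨a, b, c⟩
  have h6 : Filter.Tendsto (fun t : ℝ => φ.symm (!₂[t, 0] : E 2)) (𝓝[≠] 0) (𝓝 O) := by
    have h7 : Filter.Tendsto φ.symm (𝓝 (0 : E 2)) (𝓝 O) := by
      have := φ.tendsto_symm h1
      rwa [h2] at this
    have h8 : Filter.Tendsto (fun t : ℝ => (!₂[t, 0] : E 2)) (𝓝 0) (𝓝 0) := by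
      have h9 : Continuous (fun t : ℝ => (!₂[t, 0] : E 2)) := by
        refine (PiLp.continuous_toLp 2 _).comp ?_
        refine continuous_pi fun i => ?_
        fin_cases i
        · exact continuous_id
        · exact continuous_const
      have h10 := h9.tendsto 0
      have h11 : (!₂[(0 : ℝ), 0] : E 2) = 0 := by apply ext2 <;> simp
      rwa [h11] at h10
    exact h7.comp (h8.mono_left nhdsWithin_le_nhds)
  have h7 : ∀ᶠ t : ℝ in 𝓝[≠] 0, (!₂[t, 0] : E 2) ∈ φ.target := by
    have h9 : Continuous (fun t : ℝ => (!₂[t, 0] : E 2)) := by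
      refine (PiLp.continuous_toLp 2 _).comp ?_
      refine continuous_pi fun i => ?_
      fin_cases i
      · exact continuous_id
      · exact continuous_const
    have h11 : (!₂[(0 : ℝ), 0] : E 2) = 0 := by apply ext2 <;> simp
    have h12 : (!₂[(0 : ℝ), 0] : E 2) ∈ φ.target := by
      rw [h11, ← h2]
      exact φ.map_source h1
    exact (h9.continuousAt.eventually_mem (φ.open_target.mem_nhds h12)).filter_mono
      nhdsWithin_le_nhds
  obtain ⟨t, ⟨ht1, ht2, ht3⟩, ht4, ht5⟩ :=
    ((h6.eventually h4).and (h7.and self_mem_nhdsWithin)).exists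
  rw [φ.right_inv ht4, der_eq_lin] at ht3
  have e1 : lin ((gA : G) : SL(2, ℝ)) (!₂[t, 0] : E 2) = !₂[t, 0] := by
    change lin (sR (FreeGroup.of 0)) (!₂[t, 0] : E 2) = _
    rw [lin_zero]
    apply ext2 <;> simp
  rw [e1] at ht3
  have e2 : gA • φ.symm (!₂[t, 0] : E 2) = φ.symm (!₂[t, 0] : E 2) := by
    apply φ.injOn ht2 ht1
    rw [ht3, φ.right_inv ht4]
  have e3 : φ.symm (!₂[t, 0] : E 2) = O := by
    refine fA_fixed (x := φ.symm (!₂[t, 0] : E 2)) ?_
    have h := congrFun smul_gA (φ.symm (!₂[t, 0] : E 2))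
    exact h.symm.trans e2
  have e4 : (!₂[t, 0] : E 2) = 0 := by
    rw [← φ.right_inv ht4, e3, h2]
  have e5 : t = 0 := by
    have := congrArg (fun y : E 2 => y 0) e4
    simpa using this
  exact ht5 e5

lemma periodic (x : Plane) (h : (MulAction.orbit G x).Finite) : x = O := by
  have h1 : ¬ Function.Injective (fun k : ℕ => (⟨gA ^ k • x, ⟨gA ^ k, rfl⟩⟩ : MulAction.orbit G x)) := by
    have := h.to_subtype
    exact not_injective_infinite_finite _
  obtain ⟨m, n, hmn, hlt⟩ : ∃ m n : ℕ, gA ^ m • x = gA ^ n • x ∧ m < n := by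
    simp only [Function.Injective, not_forall] at h1
    obtain ⟨m, n, h2, h3⟩ := h1
    rcases lt_or_gt_of_ne h3 with h4 | h4
    · exact ⟨m, n, congrArg Subtype.val h2, h4⟩
    · exact ⟨n, m, (congrArg Subtype.val h2).symm, h4⟩
  have h2 : gA ^ (n - m) • x = x := by
    have h3 : gA ^ m • gA ^ (n - m) • x = gA ^ m • x := by
      rw [← mul_smul, ← pow_add, Nat.add_sub_cancel' hlt.le, hmn]
    exact (MulAction.injective _) h3
  have h3 : gA ^ (2 * (n - m)) • x = x := by
    rw [two_mul, pow_add, mul_smul, h2, h2]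
  set p := 2 * (n - m) with hp
  have hp2 : 2 ≤ p := by omega
  let u : ℕ → E 2 := fun k => (gA ^ k • x : Plane)
  have hu : ∀ k, u (k + 1) = fA (u k) := by
    intro k
    have h4 := congrFun smul_gA (gA ^ k • x)
    change (gA ^ (k + 1) • x : Plane) = _
    rw [pow_succ', mul_smul]
    exact h4
  have hu1 : ∀ k, u (k + 1) 1 = u k 1 + u k 0 ^ 2 := by
    intro k; rw [hu]; rfl
  have hu0 : ∀ k, u (k + 1) 0 = u k 0 + 2 * (u k 1 + u k 0 ^ 2) := by
    intro k; rw [hu]; rfl
  have hmono : Monotone (fun k => u k 1) := by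
    refine monotone_nat_of_le_succ fun k => ?_
    rw [hu1]
    nlinarith [sq_nonneg (u k 0)]
  have hper : u p 1 = u 0 1 := by
    have e1 : u p = x := h3
    have e2 : u 0 = x := by
      change (gA ^ 0 • x : Plane) = x
      rw [pow_zero, one_smul]
    rw [e1, e2]
  have a1 : u 1 1 = u 0 1 := le_antisymm (by rw [← hper]; exact hmono (by omega)) (hmono (by omega))
  have a2 : u 2 1 = u 0 1 := le_antisymm (by rw [← hper]; exact hmono (by omega)) (hmono (by omega))
  have b1 : u 0 0 = 0 := by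
    have := hu1 0
    rw [zero_add, a1] at this
    exact pow_eq_zero_iff two_ne_zero |>.1 (by linarith)
  have b2 : u 1 0 = 0 := by
    have := hu1 1
    rw [show 1 + 1 = 2 from rfl, a2, a1] at this
    exact pow_eq_zero_iff two_ne_zero |>.1 (by linarith)
  have b3 : u 0 1 = 0 := by
    have := hu0 0
    rw [zero_add, b1, b2] at this
    linarith
  have e2 : u 0 = x := by
    change (gA ^ 0 • x : Plane) = x
    rw [pow_zero, one_smul]
  rw [← e2]
  exact ext2 b1 b3

lemma not_linearizable : ¬ LinearizableNear 2 G O := by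
  rintro ⟨V, W, φ, hV, hp, hW, ⟨h1, h2, ψ, h3, h4, h5, h6⟩, h7, h8⟩
  let Φ : OpenPartialHomeomorph Plane (E 2) :=
    { toFun := φ
      invFun := ψ
      source := V
      target := W
      map_source' := h2
      map_target' := h4
      left_inv' := h5
      right_inv' := h6
      open_source := hV
      open_target := hW
      continuousOn_toFun := h1.continuousOn
      continuousOn_invFun := h3.continuousOn }
  refine not_conj Φ ⟨hp, h7, ?_⟩
  have h5 : ∀ᶠ x in 𝓝 O, gA • x ∈ V := by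
    refine continuous_gA.continuousAt.eventually_mem ?_
    rw [gA_O]
    exact hV.mem_nhds hp
  filter_upwards [hV.mem_nhds hp, h5] with x a b using h8 gA x a b

/-- **Negative answer to Q1 for `n = 2`, even for real-analytic actions and in the topological
category.** There are a lattice `Γ` in `SL(2,ℝ)` and an action of `Γ` on the plane by real-analytic
diffeomorphisms such that the origin is a fixed point and the only periodic point, the derivative at
the origin is the inclusion `Γ → SL(2,ℝ)` (so it is unbounded), and the action is not linearizable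
near the origin; moreover there is `γ ∈ Γ` which no homeomorphism between neighbourhoods of the
origin conjugates near the origin to the derivative of `γ`. -/
theorem result :
    ∃ Γ : Subgroup SL(2, ℝ), IsLattice Γ ∧ ∃ _ : MulAction Γ Plane,
      SmoothAction 2 Γ Plane ∧ (∀ γ : Γ, ContMDiff (𝓡 2) (𝓡 2) ω (fun x : Plane => γ • x)) ∧
      (∀ γ : Γ, γ • O = O) ∧ (∀ x : Plane, (MulAction.orbit Γ x).Finite → x = O) ∧
      (∀ γ : Γ, der 2 O γ = lin (γ : SL(2, ℝ))) ∧ (∀ C : ℝ, ∃ γ : Γ, C < ‖der 2 O γ‖) ∧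
      ¬ LinearizableNear 2 Γ O ∧
      ∃ γ : Γ, ∀ φ : OpenPartialHomeomorph Plane (E 2), ¬ ConjNear O γ φ := by
  have hω : ∀ γ : G, ContMDiff (𝓡 2) (𝓡 2) ω (fun x : Plane => γ • x) := by
    intro γ
    have h := (P_all (toF γ)).1.contMDiff
    exact h
  refine ⟨G, isLattice_G, act, ⟨inferInstance, inferInstance, inferInstance, fun γ => ?_⟩, hω,
    fun γ => (P_all (toF γ)).2.1, periodic, der_eq_lin, unbounded, not_linearizable, gA, not_conj⟩
  exact (hω γ).of_le (by exact le_top)

end Pool.Agent.Results.MP_2392aa_gt.NotLinearizable
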